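import Mathlib

set_option autoImplicit false

open Filter Set

namespace Pool.Agent.Lib.MP_78f804_pr

/-- The second-order gain `s - (1 - 2^{-s}) / log 2`. -/
noncomputable def gain (s : ℝ) : ℝ := s - (1 - Real.exp (-(s * Real.log 2))) / Real.log 2

lemma log_two_bounds : (0.69 : ℝ) < Real.log 2 ∧ Real.log 2 < 0.7 := by
  have h1 := Real.log_two_gt_d9
  have h2 := Real.log_two_lt_d9
  constructor <;> linarith

lemma gain_lower {s : ℝ} (h0 : 0 ≤ s) (h1 : s ≤ 1) : s ^ 2 / 5 ≤ gain s := by
  obtain ⟨hl1, hl2⟩ := log_two_bounds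
  set l := Real.log 2 with hl
  have hlpos : 0 < l := by linarith
  have hx0 : 0 ≤ s * l := by positivity
  have hx1 : s * l ≤ 1 := by nlinarith
  have hb := Real.exp_bound (x := -(s * l)) (by rw [abs_neg, abs_of_nonneg hx0]; exact hx1)
    (n := 3) (by norm_num)
  rw [abs_neg, abs_of_nonneg hx0] at hb
  simp only [Finset.sum_range_succ, Finset.range_zero, Finset.sum_empty, Nat.factorial] at hb
  have hb2 := (abs_le.1 hb).1
  norm_num at hb2
  have hexp : 1 - s * l + (s * l) ^ 2 / 2 - (s * l) ^ 3 * (2 / 9) ≤ Real.exp (-(s * l)) := by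
    linarith
  unfold gain
  rw [← hl]
  have : (1 - Real.exp (-(s * l))) / l ≤ s - s ^ 2 / 5 := by
    rw [div_le_iff₀ hlpos]
    have h3 : s ^ 3 ≤ s ^ 2 := by nlinarith [sq_nonneg s]
    have h4 : (s * l) ^ 3 ≤ s ^ 2 * l ^ 3 := by
      rw [mul_pow]; gcongr
    have h5 : s ^ 2 * l ^ 3 * (2 / 9) + s ^ 2 / 5 * l ≤ (s * l) ^ 2 / 2 := by
      have : l ^ 3 * (2 / 9) + l / 5 ≤ l ^ 2 / 2 := by
        have h6 : l ^ 2 * (2 / 9) + 1 / 5 ≤ l / 2 := by nlinarith
        nlinarith
      nlinarith [sq_nonneg s]
    nlinarith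
  linarith

lemma gain_nonneg {s : ℝ} (h0 : 0 ≤ s) (h1 : s ≤ 1) : 0 ≤ gain s :=
  le_trans (by positivity) (gain_lower h0 h1)

lemma step_combine (F F1 F2 b p x r e E q : ℝ) (hp0 : 0 ≤ p) (hp1 : p ≤ 1) (_hx0 : 0 < x)
    (hx1 : x ≤ 1) (hr1 : 1 ≤ r) (he0 : 0 < e) (hb : 0 ≤ b) (hF1 : F ≤ 1)
    (hV : F ≤ (1 - p) * F1 + p * F2) (ih1 : (F1 - b) * (1 - x) ≤ 1 - e * E)
    (ih2 : (F2 - b) * (1 - x) ≤ 1 - e * E * q) (hkey : r ≤ E * (1 - p * (1 - q))) :
    (F - b) * (1 - x / r) ≤ 1 - e := by
  have hrpos : 0 < r := by linarith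
  have hcomb : (F - b) * (1 - x) ≤ 1 - e * r := by
    have h1 : (F - b) * (1 - x) ≤
        (1 - p) * ((F1 - b) * (1 - x)) + p * ((F2 - b) * (1 - x)) := by
      have h0 : F - b ≤ (1 - p) * (F1 - b) + p * (F2 - b) := by linarith
      have h2 := mul_le_mul_of_nonneg_right h0 (by linarith : (0 : ℝ) ≤ 1 - x)
      refine h2.trans (le_of_eq ?_)
      ring
    have h2 : (1 - p) * ((F1 - b) * (1 - x)) ≤ (1 - p) * (1 - e * E) :=
      mul_le_mul_of_nonneg_left ih1 (by linarith)
    have h3 : p * ((F2 - b) * (1 - x)) ≤ p * (1 - e * E * q) :=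
      mul_le_mul_of_nonneg_left ih2 hp0
    have h4 : e * r ≤ e * (E * (1 - p * (1 - q))) :=
      mul_le_mul_of_nonneg_left hkey he0.le
    have h5 : (1 - p) * (1 - e * E) + p * (1 - e * E * q) = 1 - e * (E * (1 - p * (1 - q))) := by
      ring
    linarith
  set f := F - b with hf
  have hf1 : f ≤ 1 := by linarith
  have h5 : e ≤ (1 - f + f * x) / r := by
    rw [le_div_iff₀ hrpos]
    linarith
  have h6 : (1 - f + f * x) / r ≤ 1 - f + f * (x / r) := by
    rw [div_le_iff₀ hrpos]
    have h7 : (1 - f + f * (x / r)) * r = (1 - f) * r + f * x := by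
      field_simp
    rw [h7]
    have h8 : (1 - f) * 1 ≤ (1 - f) * r := mul_le_mul_of_nonneg_left hr1 (by linarith)
    linarith
  have h9 : f * (1 - x / r) = f - f * (x / r) := by ring
  rw [h9]
  linarith

/-- Abstract recursion behind the tail estimate. -/
theorem recursion_bound (V : ℕ → ℝ → ℝ)
    (V1 : ∀ n : ℕ, 1 ≤ n → ∀ t : ℝ, V (n + 1) t ≤
      (1 - 1 / (((n : ℝ) + 1) * Real.log 2)) * V n t
        + (1 / (((n : ℝ) + 1) * Real.log 2)) * V n (t / 2))
    (V2 : ∀ n : ℕ, 1 ≤ n → ∀ t : ℝ, 0 < t → V n t ≤ 3 * n / t)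
    (V3 : ∀ n t, V n t ≤ 1)
    (s y : ℝ) (hs0 : 0 < s) (hs1 : s ≤ 1) (hy : 0 < y) :
    ∀ n : ℕ, 1 ≤ n → ∀ u : ℝ, -Real.log 2 ≤ u →
      (V n (n * y * Real.exp (-u)) - 3 / y) *
          (1 - 1 / ∏ i ∈ Finset.Icc 2 n, (1 + gain s / (i : ℝ)))
        ≤ 1 - Real.exp (-(s * (u + Real.log 2))) := by
  obtain ⟨hl1, hl2⟩ := log_two_bounds
  have hgn : 0 ≤ gain s := gain_nonneg hs0.le hs1
  set l := Real.log 2 with hl
  have hlpos : 0 < l := by linarith
  have hPi1 : ∀ n : ℕ, 1 ≤ ∏ i ∈ Finset.Icc 2 n, (1 + gain s / (i : ℝ)) := by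
    intro n
    apply Finset.one_le_prod
    intro i _
    have : 0 ≤ gain s / (i : ℝ) := by positivity
    linarith
  intro n hn
  induction n, hn using Nat.le_induction with
  | base =>
    intro u hu
    simp only [show Finset.Icc 2 1 = (∅ : Finset ℕ) by decide, Finset.prod_empty]
    have : Real.exp (-(s * (u + l))) ≤ 1 := by
      rw [Real.exp_le_one_iff]
      have : 0 ≤ s * (u + l) := mul_nonneg hs0.le (by linarith)
      linarith
    have h0 : (1 : ℝ) - 1 / 1 = 0 := by norm_num
    rw [h0, mul_zero]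
    linarith
  | succ n hn ih =>
    intro u hu
    have hn0 : (1 : ℝ) ≤ n := by exact_mod_cast hn
    set Pn := ∏ i ∈ Finset.Icc 2 n, (1 + gain s / (i : ℝ)) with hPn
    have hPsucc : ∏ i ∈ Finset.Icc 2 (n + 1), (1 + gain s / (i : ℝ))
        = Pn * (1 + gain s / ((n : ℝ) + 1)) := by
      rw [Finset.prod_Icc_succ_top (by omega)]
      push_cast
      rfl
    rw [hPsucc]
    set r := 1 + gain s / ((n : ℝ) + 1) with hr
    have hr1 : 1 ≤ r := by
      have : 0 ≤ gain s / ((n : ℝ) + 1) := by positivity
      linarith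
    have hP1 : 1 ≤ Pn := hPi1 n
    have hPr : 1 ≤ Pn * r := by nlinarith
    have hexple : Real.exp (-(s * (u + l))) ≤ 1 := by
      rw [Real.exp_le_one_iff]
      have : 0 ≤ s * (u + l) := mul_nonneg hs0.le (by linarith)
      linarith
    have hcoef : 0 ≤ 1 - 1 / (Pn * r) := by
      have : 1 / (Pn * r) ≤ 1 := by
        rw [div_le_one (by linarith)]
        exact hPr
      linarith
    have hyp : 0 < 3 / y := by positivity
    push_cast
    rcases le_or_gt u 0 with hu0 | hu0
    · -- the threshold is large: use the first-moment bound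
      have hV := V2 (n + 1) (by omega) (((n : ℝ) + 1) * y * Real.exp (-u)) (by positivity)
      have hle : V (n + 1) (((n : ℝ) + 1) * y * Real.exp (-u)) ≤ 3 / y := by
        refine hV.trans ?_
        push_cast
        have h1 : 1 ≤ Real.exp (-u) := by
          rw [Real.one_le_exp_iff]; linarith
        rw [div_le_div_iff₀ (by positivity) hy]
        have : 0 < ((n : ℝ) + 1) * y := by positivity
        nlinarith
      have : (V (n + 1) (((n : ℝ) + 1) * y * Real.exp (-u)) - 3 / y) * (1 - 1 / (Pn * r)) ≤ 0 :=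
        mul_nonpos_of_nonpos_of_nonneg (by linarith) hcoef
      linarith
    · -- one step of the recursion
      set d := Real.log (((n : ℝ) + 1) / n) with hd
      have hd0 : 0 ≤ d := Real.log_nonneg (by rw [le_div_iff₀ (by linarith)]; linarith)
      have hdl : d ≤ l := by
        apply Real.log_le_log (by positivity)
        rw [div_le_iff₀ (by linarith)]; linarith
      have hexpd : Real.exp d = ((n : ℝ) + 1) / n := Real.exp_log (by positivity)
      have hnexp : ((n : ℝ) + 1) * Real.exp (-u) = n * Real.exp (-(u - d)) := by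
        rw [show -(u - d) = -u + d by ring, Real.exp_add, hexpd]
        field_simp
      have ht1 : ((n : ℝ) + 1) * y * Real.exp (-u) = n * y * Real.exp (-(u - d)) := by
        have : ((n : ℝ) + 1) * y * Real.exp (-u) = y * (((n : ℝ) + 1) * Real.exp (-u)) := by ring
        rw [this, hnexp]; ring
      have ht2 : ((n : ℝ) + 1) * y * Real.exp (-u) / 2 = n * y * Real.exp (-(u - d + l)) := by
        rw [ht1, show -(u - d + l) = -(u - d) - l by ring, Real.exp_sub, hl,
          Real.exp_log (by norm_num)]
        ring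
      have hV := V1 n hn (((n : ℝ) + 1) * y * Real.exp (-u))
      rw [ht2, ht1] at hV
      rw [ht1]
      have ih1 := ih (u - d) (by linarith)
      have ih2 := ih (u - d + l) (by linarith)
      have hF1 : V (n + 1) (n * y * Real.exp (-(u - d))) ≤ 1 := V3 _ _
      set F := V (n + 1) (n * y * Real.exp (-(u - d))) with hF
      set F1 := V n (n * y * Real.exp (-(u - d))) with hF1'
      set F2 := V n (n * y * Real.exp (-(u - d + l))) with hF2'
      set p := 1 / (((n : ℝ) + 1) * l) with hp
      have hp0 : 0 ≤ p := by positivity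
      have hp1 : p ≤ 1 := by
        rw [hp, div_le_one (by positivity)]
        nlinarith
      -- exponential factors
      set e := Real.exp (-(s * (u + l))) with he
      have he0 : 0 < e := Real.exp_pos _
      have hE1 : Real.exp (-(s * (u - d + l))) = e * Real.exp (s * d) := by
        rw [he, ← Real.exp_add]; congr 1; ring
      have hE2 : Real.exp (-(s * (u - d + l + l))) =
          e * Real.exp (s * d) * Real.exp (-(s * l)) := by
        rw [he, ← Real.exp_add, ← Real.exp_add]; congr 1; ring
      rw [hE1] at ih1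
      rw [hE2] at ih2
      -- the key inequality exp (s d) (1 - p (1 - exp (-s l))) ≥ r
      have hz : s / ((n : ℝ) + 1) < 1 := by
        rw [div_lt_one (by linarith)]; linarith
      have hkey : r ≤ Real.exp (s * d) * (1 - p * (1 - Real.exp (-(s * l)))) := by
        have hbern : 1 / (1 - s / ((n : ℝ) + 1)) ≤ Real.exp (s * d) := by
          -- (n/(n+1))^s ≤ 1 - s/(n+1)
          have h1 : Real.exp (-(s * d)) ≤ 1 - s / ((n : ℝ) + 1) := by
            have h2 : Real.exp (-(s * d)) = (1 + (-(1 / ((n : ℝ) + 1)))) ^ s := by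
              rw [Real.rpow_def_of_pos]
              · have : Real.log (1 + (-(1 / ((n : ℝ) + 1)))) = -d := by
                  rw [hd, ← Real.log_inv]
                  congr 1
                  field_simp
                  ring
                rw [this]; congr 1; ring
              · have : 1 / ((n : ℝ) + 1) < 1 := by
                  rw [div_lt_one (by linarith)]; linarith
                linarith
            rw [h2]
            have h3 := rpow_one_add_le_one_add_mul_self (s := -(1 / ((n : ℝ) + 1)))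
              (p := s) (by
                have : 1 / ((n : ℝ) + 1) ≤ 1 := by
                  rw [div_le_one (by linarith)]; linarith
                linarith) hs0.le hs1
            refine h3.trans (le_of_eq ?_)
            ring
          have h4 : Real.exp (s * d) = 1 / Real.exp (-(s * d)) := by
            rw [Real.exp_neg]; simp
          rw [h4]
          exact one_div_le_one_div_of_le (Real.exp_pos _) h1
        have hfac : 1 - p * (1 - Real.exp (-(s * l))) = 1 - (s - gain s) / ((n : ℝ) + 1) := by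
          unfold gain
          rw [hp, ← hl]
          field_simp
          ring
        rw [hfac]
        have hpos2 : 0 < 1 - s / ((n : ℝ) + 1) := by linarith
        have hle : (s - gain s) / ((n : ℝ) + 1) ≤ s / ((n : ℝ) + 1) := by
          gcongr; linarith
        have hnn : 0 ≤ 1 - (s - gain s) / ((n : ℝ) + 1) := by linarith
        calc r ≤ 1 / (1 - s / ((n : ℝ) + 1)) * (1 - (s - gain s) / ((n : ℝ) + 1)) := by
              rw [div_mul_eq_mul_div, one_mul, le_div_iff₀ hpos2, hr]
              have hz1 : 0 ≤ gain s / ((n : ℝ) + 1) := by positivity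
              have hz2 : 0 ≤ s / ((n : ℝ) + 1) := by positivity
              have : (s - gain s) / ((n : ℝ) + 1) = s / ((n : ℝ) + 1) - gain s / ((n : ℝ) + 1) := by
                ring
              rw [this]
              nlinarith [mul_nonneg hz1 hz2]
          _ ≤ _ := by gcongr
      set x := 1 / Pn with hx
      have hx0 : 0 < x := by positivity
      have hx1 : x ≤ 1 := by
        rw [hx, div_le_one (by linarith)]; exact hP1
      have hxr : 1 / (Pn * r) = x / r := by
        rw [hx]; field_simp
      rw [hxr]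
      have hrpos : 0 < r := by linarith
      have hlast := step_combine F F1 F2 (3 / y) p x r e (Real.exp (s * d))
        (Real.exp (-(s * l))) hp0 hp1 hx0 hx1 hr1 he0 hyp.le hF1 hV ih1 ih2 hkey
      exact hlast

end Pool.Agent.Lib.MP_78f804_pr
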