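import Pool.Agent.Lib.MP_78f804_pr.Defs

set_option autoImplicit false

open MeasureTheory ProbabilityTheory Filter Set

namespace Pool.Agent.Lib.MP_78f804_pr

/-- The number of distinct subset sums of a finite set, the empty sum included. -/
def cnt (B : Finset ℕ) : ℕ := (B.powerset.image (fun F => ∑ a ∈ F, a)).card

lemma cnt_empty : cnt ∅ = 1 := by
  simp [cnt]

lemma cnt_insert_le (B : Finset ℕ) (n : ℕ) (hn : n ∉ B) : cnt (insert n B) ≤ 2 * cnt B := by
  classical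
  have key : (((B.powerset).image (insert n)).image (fun F : Finset ℕ => ∑ a ∈ F, a)) =
      ((B.powerset.image (fun F : Finset ℕ => ∑ a ∈ F, a)).image (fun x => n + x)) := by
    rw [Finset.image_image, Finset.image_image]
    apply Finset.image_congr
    intro F hF
    have hF' : F ⊆ B := by simpa using hF
    simp only [Function.comp]
    rw [Finset.sum_insert (fun h => hn (hF' h))]
  unfold cnt
  rw [Finset.powerset_insert, Finset.image_union, key, two_mul]
  exact (Finset.card_union_le _ _).trans (Nat.add_le_add_left Finset.card_image_le _)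

lemma cnt_le_sum (B : Finset ℕ) : cnt B ≤ 1 + ∑ a ∈ B, a := by
  classical
  unfold cnt
  have : (B.powerset.image (fun F => ∑ a ∈ F, a)) ⊆ Finset.range (1 + ∑ a ∈ B, a) := by
    intro s hs
    simp only [Finset.mem_image, Finset.mem_powerset] at hs
    obtain ⟨F, hF, rfl⟩ := hs
    simp only [Finset.mem_range]
    have := Finset.sum_le_sum_of_subset (f := fun a : ℕ => a) hF
    omega
  simpa using Finset.card_le_card this

section
variable {Ω : Type*} (A : Ω → Set ℕ)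

open Classical in
/-- The finite set `A ∩ [1, n]`. -/
noncomputable def tr (n : ℕ) (ω : Ω) : Finset ℕ := (Finset.Icc 1 n).filter (fun i => i ∈ A ω)

lemma mem_tr (n : ℕ) (ω : Ω) (i : ℕ) : i ∈ tr A n ω ↔ (1 ≤ i ∧ i ≤ n) ∧ i ∈ A ω := by
  simp [tr]

lemma tr_succ_of_mem (n : ℕ) (ω : Ω) (h : n + 1 ∈ A ω) :
    tr A (n + 1) ω = insert (n + 1) (tr A n ω) := by
  ext i
  simp only [mem_tr, Finset.mem_insert]
  constructor
  · rintro ⟨⟨h1, h2⟩, h3⟩
    by_cases hi : i = n + 1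
    · exact Or.inl hi
    · exact Or.inr ⟨⟨h1, by omega⟩, h3⟩
  · rintro (rfl | ⟨⟨h1, h2⟩, h3⟩)
    · exact ⟨⟨by omega, le_rfl⟩, h⟩
    · exact ⟨⟨h1, by omega⟩, h3⟩

lemma tr_succ_of_not_mem (n : ℕ) (ω : Ω) (h : n + 1 ∉ A ω) :
    tr A (n + 1) ω = tr A n ω := by
  ext i
  simp only [mem_tr]
  constructor
  · rintro ⟨⟨h1, h2⟩, h3⟩
    refine ⟨⟨h1, ?_⟩, h3⟩
    by_contra hc
    have : i = n + 1 := by omega
    exact h (this ▸ h3)
  · rintro ⟨⟨h1, h2⟩, h3⟩
    exact ⟨⟨h1, by omega⟩, h3⟩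

lemma succ_notMem_tr (n : ℕ) (ω : Ω) : n + 1 ∉ tr A n ω := by
  simp [mem_tr]

/-- The number of subset sums of `A` in `[1, n]` is at most `cnt (A ∩ [1, n])`. -/
lemma ncard_subsetSums_le (hpos : ∀ ω : Ω, ∀ i ∈ A ω, 1 ≤ i) (n : ℕ) (ω : Ω) :
    (subsetSums (A ω) ∩ Set.Icc 1 n).ncard ≤ cnt (tr A n ω) := by
  classical
  unfold cnt
  rw [← Set.ncard_coe_finset]
  apply Set.ncard_le_ncard _ (Finset.finite_toSet _)
  rintro s ⟨⟨F, hF, hFA, rfl⟩, h1, h2⟩
  simp only [Finset.coe_image, Set.mem_image, Finset.mem_coe, Finset.mem_powerset]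
  refine ⟨F, ?_, rfl⟩
  intro a ha
  rw [mem_tr]
  refine ⟨⟨hpos ω a (hFA ha), ?_⟩, hFA ha⟩
  exact (Finset.single_le_sum (f := fun a : ℕ => a) (fun _ _ => Nat.zero_le _) ha).trans h2

end

end Pool.Agent.Lib.MP_78f804_pr
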