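import Mathlib

set_option autoImplicit false

open MeasureTheory ProbabilityTheory Filter Set

namespace Pool.Agent.Lib.MP_78f804_pr

/-- `subsetSums A` is the set of all sums of the elements of a finite nonempty subset of `A`. -/
def subsetSums (A : Set ℕ) : Set ℕ :=
  {s | ∃ F : Finset ℕ, F.Nonempty ∧ (F : Set ℕ) ⊆ A ∧ ∑ a ∈ F, a = s}

/-- The random set `A` of positive integers contains each integer `i ≥ 1` independently with
probability `min 1 (1 / (i log 2))`. -/
structure IsRandomLacunary {Ω : Type*} [MeasurableSpace Ω] (P : Measure Ω)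
    (A : Ω → Set ℕ) : Prop where
  measurable : ∀ i : ℕ, MeasurableSet {ω | i ∈ A ω}
  pos : ∀ ω : Ω, ∀ i ∈ A ω, 1 ≤ i
  indep : iIndepSet (fun i : ℕ => {ω | i ∈ A ω}) P
  prob : ∀ i : ℕ, 1 ≤ i →
    P {ω | i ∈ A ω} = ENNReal.ofReal (min 1 (1 / ((i : ℝ) * Real.log 2)))

end Pool.Agent.Lib.MP_78f804_pr
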