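import Pool.Agent.Lib.MP_78f804_pr.Basic

set_option autoImplicit false

open MeasureTheory ProbabilityTheory Filter Set

namespace Pool.Agent.Lib.MP_78f804_pr

/-- The inclusion probability. -/
noncomputable def q (i : ℕ) : ℝ := min 1 (1 / ((i : ℝ) * Real.log 2))

lemma q_nonneg (i : ℕ) : 0 ≤ q i := by
  unfold q
  have : 0 ≤ Real.log 2 := Real.log_nonneg (by norm_num)
  exact le_min zero_le_one (by positivity)

lemma q_le_one (i : ℕ) : q i ≤ 1 := min_le_left _ _

/-- The law of the `i`-th coordinate. -/
noncomputable def coin (i : ℕ) : Measure Bool :=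
  ENNReal.ofReal (q i) • Measure.dirac true + ENNReal.ofReal (1 - q i) • Measure.dirac false

instance (i : ℕ) : IsProbabilityMeasure (coin i) := by
  constructor
  simp only [coin, Measure.coe_add, Measure.coe_smul, Pi.add_apply, Pi.smul_apply,
    measure_univ, smul_eq_mul, mul_one]
  rw [← ENNReal.ofReal_add (q_nonneg i) (by linarith [q_le_one i])]
  simp

lemma coin_true (i : ℕ) : coin i {true} = ENNReal.ofReal (q i) := by
  simp [coin]

/-- The canonical random set on the product space. -/
def setOf' (ω : ℕ → Bool) : Set ℕ := {i | 1 ≤ i ∧ ω i = true}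

/-- The coordinate sets describing the membership events. -/
def cs (i : ℕ) : Set Bool := if 1 ≤ i then {true} else ∅

lemma event_eq (i : ℕ) : {ω : ℕ → Bool | i ∈ setOf' ω} = Set.pi ({i} : Finset ℕ) cs := by
  ext ω
  simp only [setOf', Set.mem_ofPred_eq, Finset.coe_singleton, Set.singleton_pi, Set.mem_preimage,
    Function.eval, cs]
  split_ifs with h
  · simp [h]
  · simp [h]

theorem model_isRandomLacunary :
    IsRandomLacunary (Measure.infinitePi coin) setOf' := by
  have hmeas : ∀ i : ℕ, MeasurableSet {ω : ℕ → Bool | i ∈ setOf' ω} := by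
    intro i
    rw [event_eq]
    exact MeasurableSet.pi (Finset.countable_toSet _) (fun _ _ => MeasurableSet.of_discrete)
  have hone : ∀ i : ℕ, Measure.infinitePi coin {ω : ℕ → Bool | i ∈ setOf' ω} = coin i (cs i) := by
    intro i
    rw [event_eq, Measure.infinitePi_pi _ (fun _ _ => MeasurableSet.of_discrete)]
    simp
  refine ⟨hmeas, fun ω i hi => hi.1, ?_, ?_⟩
  · rw [iIndepSet_iff_meas_biInter hmeas]
    intro s
    simp only [hone]
    have : (⋂ i ∈ s, {ω : ℕ → Bool | i ∈ setOf' ω}) = Set.pi s cs := by
      ext ω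
      simp only [Set.mem_iInter, Set.mem_pi, Finset.mem_coe]
      apply forall_congr'
      intro i
      apply forall_congr'
      intro _
      rw [event_eq]
      simp
    rw [this, Measure.infinitePi_pi _ (fun _ _ => MeasurableSet.of_discrete)]
  · intro i hi
    rw [hone]
    simp only [cs, hi, if_true]
    rw [coin_true]
    rfl

end Pool.Agent.Lib.MP_78f804_pr
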