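import Pool.Agent.Lib.MP_78f804_pr.Basic
import Pool.Agent.Lib.MP_78f804_pr.Analytic

set_option autoImplicit false

open MeasureTheory ProbabilityTheory Filter Set

namespace Pool.Agent.Lib.MP_78f804_pr

variable {Ω : Type*} [mΩ : MeasurableSpace Ω] {P : Measure Ω} {A : Ω → Set ℕ}

/-- The sigma-algebra generated by the membership events up to `n`. -/
@[reducible] def sig (A : Ω → Set ℕ) (n : ℕ) : MeasurableSpace Ω :=
  MeasurableSpace.generateFrom {t | ∃ k ≤ n, {ω | k ∈ A ω} = t}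

omit mΩ in
lemma measurableSet_sig (n k : ℕ) (hk : k ≤ n) : MeasurableSet[sig A n] {ω | k ∈ A ω} :=
  MeasurableSpace.measurableSet_generateFrom ⟨k, hk, rfl⟩

lemma sig_le (h : IsRandomLacunary P A) (n : ℕ) : sig A n ≤ mΩ := by
  apply MeasurableSpace.generateFrom_le
  rintro t ⟨k, _, rfl⟩
  exact h.measurable k

omit mΩ in
lemma measurableSet_tr_eq (n : ℕ) (B : Finset ℕ) :
    MeasurableSet[sig A n] {ω | tr A n ω = B} := by
  classical
  by_cases hB : B ⊆ Finset.Icc 1 n
  · have : {ω | tr A n ω = B} = ⋂ i ∈ Finset.Icc 1 n, {ω | i ∈ A ω ↔ i ∈ B} := by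
      ext ω
      simp only [Set.mem_ofPred_eq, Set.mem_iInter]
      constructor
      · rintro rfl i hi
        rw [mem_tr]
        rw [Finset.mem_Icc] at hi
        exact ⟨fun h => ⟨hi, h⟩, fun h => h.2⟩
      · intro h
        ext i
        rw [mem_tr]
        constructor
        · rintro ⟨h1, h2⟩
          exact (h i (Finset.mem_Icc.2 h1)).1 h2
        · intro hi
          have h1 := hB hi
          exact ⟨Finset.mem_Icc.1 h1, (h i h1).2 hi⟩
    rw [this]
    refine @Finset.measurableSet_biInter Ω ℕ (sig A n) _ (Finset.Icc 1 n) (fun i hi => ?_)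
    rw [Finset.mem_Icc] at hi
    by_cases hiB : i ∈ B
    · simp only [hiB, iff_true]
      exact measurableSet_sig n i hi.2
    · simp only [hiB, iff_false]
      exact (measurableSet_sig n i hi.2).compl
  · have : {ω | tr A n ω = B} = ∅ := by
      ext ω
      simp only [Set.mem_ofPred_eq, Set.mem_empty_iff_false, iff_false]
      rintro rfl
      apply hB
      intro i hi
      rw [mem_tr] at hi
      exact Finset.mem_Icc.2 hi.1
    rw [this]
    exact @MeasurableSet.empty Ω (sig A n)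

omit mΩ in
/-- Any event depending only on `A ∩ [1, n]` is measurable for `sig A n`. -/
lemma measurableSet_tr (n : ℕ) (S : Set (Finset ℕ)) :
    MeasurableSet[sig A n] {ω | tr A n ω ∈ S} := by
  classical
  have : {ω | tr A n ω ∈ S} =
      ⋃ B ∈ (Finset.Icc 1 n).powerset.filter (fun B => B ∈ S), {ω | tr A n ω = B} := by
    ext ω
    simp only [Set.mem_ofPred_eq, Set.mem_iUnion, Finset.mem_filter, Finset.mem_powerset,
      exists_prop, exists_eq_right']
    constructor
    · intro h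
      refine ⟨?_, h⟩
      intro i hi
      rw [mem_tr] at hi
      exact Finset.mem_Icc.2 hi.1
    · exact fun h => h.2
  rw [this]
  exact @Finset.measurableSet_biUnion Ω _ (sig A n) _ _ (fun B _ => measurableSet_tr_eq n B)

/-- Events depending on `A ∩ [1, n]` are independent of `n + 1 ∈ A`. -/
lemma indep_succ (h : IsRandomLacunary P A) (n : ℕ) (E : Set Ω) (hE : MeasurableSet[sig A n] E) :
    P.real ({ω | n + 1 ∈ A ω} ∩ E) = P.real {ω | n + 1 ∈ A ω} * P.real E ∧
    P.real ({ω | n + 1 ∈ A ω}ᶜ ∩ E) = (1 - P.real {ω | n + 1 ∈ A ω}) * P.real E := by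
  have hprob : IsProbabilityMeasure P := h.indep.isProbabilityMeasure
  have h1 := h.indep.indep_generateFrom_le_nat h.measurable n
  rw [Indep_iff] at h1
  have hs : MeasurableSet[MeasurableSpace.generateFrom {{ω | n + 1 ∈ A ω}}]
      {ω | n + 1 ∈ A ω} := MeasurableSpace.measurableSet_generateFrom rfl
  have ha := h1 _ E hs hE
  have hb := h1 _ E hs.compl hE
  constructor
  · rw [measureReal_def, ha, ENNReal.toReal_mul]; rfl
  · rw [measureReal_def, hb, ENNReal.toReal_mul]
    rw [← measureReal_def, ← measureReal_def, probReal_compl_eq_one_sub (h.measurable (n + 1))]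

/-- `P (n ∈ A) = 1 / (n log 2)` for `n ≥ 2`. -/
lemma prob_succ (h : IsRandomLacunary P A) (n : ℕ) (hn : 1 ≤ n) :
    P.real {ω | n + 1 ∈ A ω} = 1 / (((n : ℝ) + 1) * Real.log 2) := by
  obtain ⟨hl1, hl2⟩ := log_two_bounds
  have hn' : (1 : ℝ) ≤ n := by exact_mod_cast hn
  rw [measureReal_def, h.prob (n + 1) (by omega)]
  push_cast
  rw [ENNReal.toReal_ofReal, min_eq_right]
  · rw [div_le_one (by positivity)]
    nlinarith
  · apply le_min (by norm_num)
    positivity

/-- The tail function of the number of subset sums. -/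
noncomputable def V (P : Measure Ω) (A : Ω → Set ℕ) (n : ℕ) (t : ℝ) : ℝ :=
  P.real {ω | t ≤ (cnt (tr A n ω) : ℝ)}

lemma V_le_one (h : IsRandomLacunary P A) (n : ℕ) (t : ℝ) : V P A n t ≤ 1 := by
  have hprob : IsProbabilityMeasure P := h.indep.isProbabilityMeasure
  exact measureReal_le_one

lemma V_rec (h : IsRandomLacunary P A) (n : ℕ) (hn : 1 ≤ n) (t : ℝ) : V P A (n + 1) t ≤
      (1 - 1 / (((n : ℝ) + 1) * Real.log 2)) * V P A n t
        + (1 / (((n : ℝ) + 1) * Real.log 2)) * V P A n (t / 2) := by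
  have hprob : IsProbabilityMeasure P := h.indep.isProbabilityMeasure
  have hE1 : MeasurableSet[sig A n] {ω | t ≤ (cnt (tr A n ω) : ℝ)} :=
    measurableSet_tr n {B | t ≤ (cnt B : ℝ)}
  have hE2 : MeasurableSet[sig A n] {ω | t / 2 ≤ (cnt (tr A n ω) : ℝ)} :=
    measurableSet_tr n {B | t / 2 ≤ (cnt B : ℝ)}
  have hsub : {ω | t ≤ (cnt (tr A (n + 1) ω) : ℝ)} ⊆
      ({ω | n + 1 ∈ A ω}ᶜ ∩ {ω | t ≤ (cnt (tr A n ω) : ℝ)}) ∪
      ({ω | n + 1 ∈ A ω} ∩ {ω | t / 2 ≤ (cnt (tr A n ω) : ℝ)}) := by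
    intro ω hω
    simp only [Set.mem_ofPred_eq] at hω
    by_cases hm : n + 1 ∈ A ω
    · right
      refine ⟨hm, ?_⟩
      rw [tr_succ_of_mem A n ω hm] at hω
      have h1 := cnt_insert_le (tr A n ω) (n + 1) (succ_notMem_tr A n ω)
      have h2 : (cnt (insert (n + 1) (tr A n ω)) : ℝ) ≤ 2 * (cnt (tr A n ω) : ℝ) := by
        exact_mod_cast h1
      simp only [Set.mem_ofPred_eq]
      linarith
    · left
      refine ⟨hm, ?_⟩
      rw [tr_succ_of_not_mem A n ω hm] at hω
      exact hω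
  have h1 := measureReal_mono (μ := P) hsub (measure_ne_top _ _)
  have h2 := measureReal_union_le (μ := P)
    ({ω | n + 1 ∈ A ω}ᶜ ∩ {ω | t ≤ (cnt (tr A n ω) : ℝ)})
    ({ω | n + 1 ∈ A ω} ∩ {ω | t / 2 ≤ (cnt (tr A n ω) : ℝ)})
  have h3 := (indep_succ h n _ hE1).2
  have h4 := (indep_succ h n _ hE2).1
  rw [prob_succ h n hn] at h3 h4
  unfold V
  linarith

/-- The indicator of `i ∈ A`. -/
lemma integral_indicator_mem (h : IsRandomLacunary P A) (i : ℕ) :
    ∫ ω, ({ω | i ∈ A ω} : Set Ω).indicator (fun _ => (i : ℝ)) ω ∂P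
      = P.real {ω | i ∈ A ω} * i := by
  rw [integral_indicator_const _ (h.measurable i)]
  simp

lemma prob_mul_le (h : IsRandomLacunary P A) (i : ℕ) (hi : 1 ≤ i) :
    P.real {ω | i ∈ A ω} * i ≤ 1 / Real.log 2 := by
  obtain ⟨hl1, hl2⟩ := log_two_bounds
  have hi' : (1 : ℝ) ≤ i := by exact_mod_cast hi
  rw [measureReal_def, h.prob i hi, ENNReal.toReal_ofReal (by positivity)]
  have : min 1 (1 / ((i : ℝ) * Real.log 2)) ≤ 1 / ((i : ℝ) * Real.log 2) := min_le_right _ _
  calc min 1 (1 / ((i : ℝ) * Real.log 2)) * i ≤ 1 / ((i : ℝ) * Real.log 2) * i := by gcongr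
    _ = 1 / Real.log 2 := by field_simp

omit mΩ in
lemma sum_tr_eq (n : ℕ) (ω : Ω) :
    ((∑ a ∈ tr A n ω, a : ℕ) : ℝ) =
      ∑ i ∈ Finset.Icc 1 n, ({ω | i ∈ A ω} : Set Ω).indicator (fun _ => (i : ℝ)) ω := by
  classical
  unfold tr
  rw [Finset.sum_filter]
  push_cast
  apply Finset.sum_congr rfl
  intro i _
  by_cases hi : i ∈ A ω
  · simp [hi, Set.indicator]
  · simp [hi, Set.indicator]

/-- First-moment (Markov) bound for the number of subset sums. -/
lemma V_markov (h : IsRandomLacunary P A) (n : ℕ) (hn : 1 ≤ n) (t : ℝ) (ht : 0 < t) :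
    V P A n t ≤ 3 * n / t := by
  have hprob : IsProbabilityMeasure P := h.indep.isProbabilityMeasure
  obtain ⟨hl1, hl2⟩ := log_two_bounds
  have hn' : (1 : ℝ) ≤ n := by exact_mod_cast hn
  set f : Ω → ℝ := fun ω =>
    1 + ∑ i ∈ Finset.Icc 1 n, ({ω | i ∈ A ω} : Set Ω).indicator (fun _ => (i : ℝ)) ω with hf
  have hint : ∀ i ∈ Finset.Icc 1 n,
      Integrable (({ω | i ∈ A ω} : Set Ω).indicator (fun _ => (i : ℝ))) P := by
    intro i _
    exact (integrable_const _).indicator (h.measurable i)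
  have hfint : Integrable f P := (integrable_const _).add (integrable_finsetSum _ hint)
  have hf0 : 0 ≤ᵐ[P] f := by
    refine Filter.Eventually.of_forall (fun ω => ?_)
    have : 0 ≤ ∑ i ∈ Finset.Icc 1 n, ({ω | i ∈ A ω} : Set Ω).indicator (fun _ => (i : ℝ)) ω := by
      apply Finset.sum_nonneg
      intro i _
      apply Set.indicator_nonneg
      intro _ _
      positivity
    simp only [hf, Pi.zero_apply]
    linarith
  have hmean : ∫ ω, f ω ∂P ≤ 3 * n := by
    simp only [hf]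
    rw [integral_add (integrable_const _) (integrable_finsetSum _ hint),
      integral_finsetSum _ hint]
    simp only [integral_indicator_mem h]
    have h1 : ∑ i ∈ Finset.Icc 1 n, P.real {ω | i ∈ A ω} * (i : ℝ) ≤
        ∑ i ∈ Finset.Icc 1 n, 1 / Real.log 2 := by
      apply Finset.sum_le_sum
      intro i hi
      exact prob_mul_le h i (Finset.mem_Icc.1 hi).1
    rw [Finset.sum_const, Nat.card_Icc, nsmul_eq_mul] at h1
    have h2 : (1 : ℝ) / Real.log 2 ≤ 2 := by
      rw [div_le_iff₀ (by linarith)]; linarith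
    have h3 : ∫ _ω, (1 : ℝ) ∂P = 1 := by simp
    rw [h3]
    push_cast at h1
    have h4 : (n : ℝ) * (1 / Real.log 2) ≤ n * 2 := by gcongr
    linarith
  have hmk := mul_meas_ge_le_integral_of_nonneg hf0 hfint t
  have hsub : {ω | t ≤ (cnt (tr A n ω) : ℝ)} ⊆ {ω | t ≤ f ω} := by
    intro ω hω
    simp only [Set.mem_ofPred_eq] at hω ⊢
    have h1 : (cnt (tr A n ω) : ℝ) ≤ 1 + ((∑ a ∈ tr A n ω, a : ℕ) : ℝ) := by
      exact_mod_cast cnt_le_sum (tr A n ω)
    rw [sum_tr_eq] at h1
    exact hω.trans h1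
  have h1 := measureReal_mono (μ := P) hsub (measure_ne_top _ _)
  unfold V
  rw [le_div_iff₀ ht]
  nlinarith

end Pool.Agent.Lib.MP_78f804_pr
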