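import Pool.Agent.Lib.MP_78f804_pr.Prob

set_option autoImplicit false

open MeasureTheory ProbabilityTheory Filter Set
open scoped Topology

namespace Pool.Agent.Lib.MP_78f804_pr

variable {Ω : Type*} [mΩ : MeasurableSpace Ω] {P : Measure Ω} {A : Ω → Set ℕ}

lemma sum_inv_lower' (n : ℕ) (hn : 1 ≤ n) :
    Real.log ((n : ℝ) + 1) - 1 ≤ ∑ i ∈ Finset.Icc 2 n, (1 : ℝ) / i := by
  induction n, hn using Nat.le_induction with
  | base =>
    have := log_two_bounds.2
    norm_num
    linarith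
  | succ n hn ih =>
    rw [Finset.sum_Icc_succ_top (by omega)]
    have hn' : (1 : ℝ) ≤ n := by exact_mod_cast hn
    have h1 : Real.log ((n : ℝ) + 1 + 1) - Real.log ((n : ℝ) + 1) ≤ 1 / ((n : ℝ) + 1) := by
      rw [← Real.log_div (by positivity) (by positivity)]
      have h2 := Real.log_le_sub_one_of_pos (x := ((n : ℝ) + 1 + 1) / ((n : ℝ) + 1))
        (by positivity)
      have h3 : ((n : ℝ) + 1 + 1) / ((n : ℝ) + 1) - 1 = 1 / ((n : ℝ) + 1) := by field_simp; ring
      linarith
    push_cast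
    linarith

lemma sum_inv_lower (n : ℕ) (hn : 1 ≤ n) :
    Real.log n - 1 ≤ ∑ i ∈ Finset.Icc 2 n, (1 : ℝ) / i := by
  have h := sum_inv_lower' n hn
  have hn' : (1 : ℝ) ≤ n := by exact_mod_cast hn
  have : Real.log n ≤ Real.log ((n : ℝ) + 1) := Real.log_le_log (by linarith) (by linarith)
  linarith

lemma one_add_sum_le_prod (s : Finset ℕ) (f : ℕ → ℝ) (hf : ∀ i ∈ s, 0 ≤ f i) :
    1 + ∑ i ∈ s, f i ≤ ∏ i ∈ s, (1 + f i) := by
  classical
  induction s using Finset.induction_on with
  | empty => simp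
  | insert a s ha ih =>
    rw [Finset.sum_insert ha, Finset.prod_insert ha]
    have h1 := ih (fun i hi => hf i (Finset.mem_insert_of_mem hi))
    have h2 : 0 ≤ f a := hf a (Finset.mem_insert_self _ _)
    have h3 : 0 ≤ ∑ i ∈ s, f i :=
      Finset.sum_nonneg (fun i hi => hf i (Finset.mem_insert_of_mem hi))
    nlinarith

/-- The tail estimate: a quantitative ballot-type bound for the number of subset sums. -/
theorem tail_bound (h : IsRandomLacunary P A) (n : ℕ) (hn : 1 ≤ n) (hL : 2 ≤ Real.log n)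
    (y u : ℝ) (hy : 0 < y) (hu : 0 ≤ u) :
    V P A n (n * y * Real.exp (-u)) ≤ 3 / y + 11 * (u + Real.log 2) / √(Real.log n) := by
  obtain ⟨hl1, hl2⟩ := log_two_bounds
  set L := Real.log n with hLdef
  have hLpos : 0 < L := by linarith
  have hsq : 0 < √L := Real.sqrt_pos.2 hLpos
  have hsq1 : 1 ≤ √L := by
    rw [show (1 : ℝ) = √1 by simp]
    exact Real.sqrt_le_sqrt (by linarith)
  set s := 1 / √L with hs
  have hs0 : 0 < s := by positivity
  have hs1 : s ≤ 1 := by
    rw [hs, div_le_one hsq]; exact hsq1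
  have hs2 : s ^ 2 = 1 / L := by
    rw [hs, div_pow, Real.sq_sqrt hLpos.le]; simp
  have hrec := recursion_bound (V P A) (V_rec h) (V_markov h) (V_le_one h) s y hs0 hs1 hy n hn u
    (by linarith)
  set Pn := ∏ i ∈ Finset.Icc 2 n, (1 + gain s / (i : ℝ)) with hPn
  have hg := gain_lower hs0.le hs1
  have hg0 : 0 ≤ gain s := gain_nonneg hs0.le hs1
  have hP : 11 / 10 ≤ Pn := by
    have h1 := one_add_sum_le_prod (Finset.Icc 2 n) (fun i => gain s / (i : ℝ))
      (fun i _ => by positivity)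
    have h2 : ∑ i ∈ Finset.Icc 2 n, gain s / (i : ℝ) =
        gain s * ∑ i ∈ Finset.Icc 2 n, (1 : ℝ) / i := by
      rw [Finset.mul_sum]
      apply Finset.sum_congr rfl
      intro i _
      ring
    have h3 := sum_inv_lower n hn
    have h4 : L / 2 ≤ ∑ i ∈ Finset.Icc 2 n, (1 : ℝ) / i := by linarith
    have h5 : (1 / L / 5) * (L / 2) ≤ gain s * ∑ i ∈ Finset.Icc 2 n, (1 : ℝ) / i := by
      apply mul_le_mul _ h4 (by positivity) hg0
      rw [← hs2]
      exact hg
    have h6 : (1 / L / 5) * (L / 2) = 1 / 10 := by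
      field_simp; norm_num
    rw [h2] at h1
    linarith
  have hexp : 1 - Real.exp (-(s * (u + Real.log 2))) ≤ s * (u + Real.log 2) := by
    have := Real.add_one_le_exp (-(s * (u + Real.log 2)))
    linarith
  have hpos : 0 ≤ s * (u + Real.log 2) := mul_nonneg hs0.le (by linarith)
  have hgoal : 11 * (u + Real.log 2) / √L = 11 * (s * (u + Real.log 2)) := by
    rw [hs]; ring
  rw [hgoal]
  rcases le_or_gt (V P A n (n * y * Real.exp (-u)) - 3 / y) 0 with hneg | hpos'
  · linarith
  · have h1 : 1 / 11 ≤ 1 - 1 / Pn := by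
      have : 1 / Pn ≤ 10 / 11 := by
        rw [div_le_div_iff₀ (by linarith) (by norm_num)]
        linarith
      linarith
    have h2 : (V P A n (n * y * Real.exp (-u)) - 3 / y) * (1 / 11) ≤
        (V P A n (n * y * Real.exp (-u)) - 3 / y) * (1 - 1 / Pn) :=
      mul_le_mul_of_nonneg_left h1 hpos'.le
    linarith

/-- The number of subset sums of `A` lying in `[1, n]`. -/
noncomputable def count (A : Ω → Set ℕ) (n : ℕ) (ω : Ω) : ℕ :=
  (subsetSums (A ω) ∩ Set.Icc 1 n).ncard

lemma count_tail (h : IsRandomLacunary P A) (n : ℕ) (hn : 1 ≤ n) (hL : 2 ≤ Real.log n)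
    (y u : ℝ) (hy : 0 < y) (hu : 0 ≤ u) :
    P.real {ω | y * Real.exp (-u) ≤ (count A n ω : ℝ) / n} ≤
      3 / y + 11 * (u + Real.log 2) / √(Real.log n) := by
  have hprob : IsProbabilityMeasure P := h.indep.isProbabilityMeasure
  refine le_trans (measureReal_mono ?_ (measure_ne_top _ _)) (tail_bound h n hn hL y u hy hu)
  intro ω hω
  simp only [Set.mem_ofPred_eq] at hω ⊢
  have hn' : (0 : ℝ) < n := by exact_mod_cast hn
  rw [le_div_iff₀ hn'] at hω
  have h1 : (count A n ω : ℝ) ≤ (cnt (tr A n ω) : ℝ) := by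
    exact_mod_cast ncard_subsetSums_le A h.pos n ω
  linarith

lemma tendsto_log_nat : Tendsto (fun n : ℕ => Real.log (n : ℝ)) atTop atTop :=
  Real.tendsto_log_atTop.comp tendsto_natCast_atTop_atTop

lemma tendsto_sqrt_log_nat : Tendsto (fun n : ℕ => √(Real.log (n : ℝ))) atTop atTop :=
  Real.tendsto_sqrt_atTop.comp tendsto_log_nat

/-- Typical size: the density is at most `exp (-η √(log n))` with probability `≥ 1 - δ`. -/
theorem typical (h : IsRandomLacunary P A) (δ : ℝ) (hδ : 0 < δ) :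
    ∃ η : ℝ, 0 < η ∧ ∀ᶠ n : ℕ in atTop,
      P.real {ω | Real.exp (-(η * √(Real.log n))) ≤ (count A n ω : ℝ) / n} ≤ δ := by
  obtain ⟨hl1, hl2⟩ := log_two_bounds
  set y : ℝ := 12 / δ + 1 with hy
  have hy1 : 1 ≤ y := by
    have : 0 ≤ 12 / δ := by positivity
    linarith
  have hypos : 0 < y := by linarith
  have hlogy : 0 ≤ Real.log y := Real.log_nonneg hy1
  refine ⟨δ / 44, by positivity, ?_⟩
  have hev1 : ∀ᶠ n : ℕ in atTop, 2 ≤ Real.log (n : ℝ) := tendsto_log_nat.eventually_ge_atTop 2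
  have hev2 : ∀ᶠ n : ℕ in atTop, 44 * (Real.log y + Real.log 2) / δ ≤ √(Real.log (n : ℝ)) :=
    tendsto_sqrt_log_nat.eventually_ge_atTop _
  filter_upwards [hev1, hev2, eventually_ge_atTop 1] with n h1 h2 h3
  set S := √(Real.log (n : ℝ)) with hS
  have hSpos : 0 < S := Real.sqrt_pos.2 (by linarith)
  have hu : 0 ≤ δ / 44 * S + Real.log y := by positivity
  have hmain := count_tail h n h3 h1 y (δ / 44 * S + Real.log y) hypos hu
  have heq : y * Real.exp (-(δ / 44 * S + Real.log y)) = Real.exp (-(δ / 44 * S)) := by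
    rw [neg_add, Real.exp_add, Real.exp_neg (Real.log y), Real.exp_log hypos]
    field_simp
  rw [heq] at hmain
  refine hmain.trans ?_
  have h4 : 3 / y ≤ δ / 4 := by
    rw [div_le_div_iff₀ hypos (by norm_num)]
    have : δ * y = 12 + δ := by rw [hy]; field_simp
    linarith
  have h5 : 11 * (δ / 44 * S + Real.log y + Real.log 2) / S ≤ δ / 4 + δ / 4 := by
    rw [div_le_iff₀ hSpos]
    rw [div_le_iff₀ hδ] at h2
    nlinarith
  rw [← hS]
  linarith

/-- The normalised counting function goes to zero in probability. -/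
theorem tendsto_zero (h : IsRandomLacunary P A) (ε : ℝ) (hε : 0 < ε) :
    Tendsto (fun n : ℕ => P.real {ω | ε ≤ √(Real.log n) * (count A n ω : ℝ) / n}) atTop (𝓝 0) := by
  have hprob : IsProbabilityMeasure P := h.indep.isProbabilityMeasure
  rw [Metric.tendsto_nhds]
  intro δ hδ
  obtain ⟨η, hη, hev⟩ := typical h (δ / 2) (by positivity)
  -- eventually exp (-η S) ≤ ε / S
  have hexp : ∀ᶠ n : ℕ in atTop,
      Real.exp (-(η * √(Real.log n))) ≤ ε / √(Real.log n) := by
    have h1 : Tendsto (fun x : ℝ => x * Real.exp (-(η * x))) atTop (𝓝 0) := by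
      have h2 := Real.tendsto_pow_mul_exp_neg_atTop_nhds_zero 1
      have h3 : Tendsto (fun x : ℝ => η * x) atTop atTop := tendsto_id.const_mul_atTop hη
      have h4 := (h2.comp h3).const_mul (1 / η)
      simp only [mul_zero] at h4
      refine h4.congr (fun x => ?_)
      simp only [Function.comp, pow_one]
      field_simp
    have h5 := h1.comp tendsto_sqrt_log_nat
    have h6 : ∀ᶠ n : ℕ in atTop,
        √(Real.log n) * Real.exp (-(η * √(Real.log n))) < ε :=
      h5.eventually_lt_const hε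
    have h7 : ∀ᶠ n : ℕ in atTop, 1 ≤ √(Real.log (n : ℝ)) :=
      tendsto_sqrt_log_nat.eventually_ge_atTop 1
    filter_upwards [h6, h7] with n h8 h9
    rw [le_div_iff₀ (by linarith)]
    linarith
  have h7 : ∀ᶠ n : ℕ in atTop, 1 ≤ √(Real.log (n : ℝ)) :=
    tendsto_sqrt_log_nat.eventually_ge_atTop 1
  filter_upwards [hev, hexp, h7, eventually_ge_atTop 1] with n h1 h2 h3 h4
  have hn' : (0 : ℝ) < n := by exact_mod_cast h4
  have hS : 0 < √(Real.log (n : ℝ)) := by linarith
  have hsub : {ω | ε ≤ √(Real.log n) * (count A n ω : ℝ) / n} ⊆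
      {ω | Real.exp (-(η * √(Real.log n))) ≤ (count A n ω : ℝ) / n} := by
    intro ω hω
    simp only [Set.mem_ofPred_eq] at hω ⊢
    refine h2.trans ?_
    rw [div_le_iff₀ hS]
    calc ε ≤ √(Real.log n) * (count A n ω : ℝ) / n := hω
      _ = (count A n ω : ℝ) / n * √(Real.log n) := by ring
  have h5 := measureReal_mono (μ := P) hsub (measure_ne_top _ _)
  rw [Real.dist_eq, sub_zero, abs_of_nonneg measureReal_nonneg]
  linarith

/-- Almost surely the normalised counting function is infinitely often below any `ε > 0`. -/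
theorem ae_frequently_lt (h : IsRandomLacunary P A) :
    ∀ᵐ ω ∂P, ∀ ε : ℝ, 0 < ε → ∃ᶠ n : ℕ in atTop, √(Real.log n) * (count A n ω : ℝ) / n < ε := by
  have hprob : IsProbabilityMeasure P := h.indep.isProbabilityMeasure
  -- for each fixed ε = 1/(m+1) and N the intersection has measure zero
  have key : ∀ m N : ℕ, ∀ᵐ ω ∂P, ∃ n : ℕ, N ≤ n ∧
      √(Real.log n) * (count A n ω : ℝ) / n < 1 / ((m : ℝ) + 1) := by
    intro m N
    rw [ae_iff]
    have hsub : ∀ n : ℕ, N ≤ n → {ω | ¬ ∃ n : ℕ, N ≤ n ∧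
        √(Real.log n) * (count A n ω : ℝ) / n < 1 / ((m : ℝ) + 1)} ⊆
        {ω | 1 / ((m : ℝ) + 1) ≤ √(Real.log n) * (count A n ω : ℝ) / n} := by
      intro n hn ω hω
      simp only [Set.mem_ofPred_eq, not_exists, not_and, not_lt] at hω ⊢
      exact hω n hn
    have ht := tendsto_zero h (1 / ((m : ℝ) + 1)) (by positivity)
    have hle : P.real {ω | ¬ ∃ n : ℕ, N ≤ n ∧
        √(Real.log n) * (count A n ω : ℝ) / n < 1 / ((m : ℝ) + 1)} ≤ 0 := by
      apply ge_of_tendsto ht
      filter_upwards [eventually_ge_atTop N] with n hn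
      exact measureReal_mono (hsub n hn) (measure_ne_top _ _)
    have h0 := le_antisymm hle measureReal_nonneg
    rw [measureReal_eq_zero_iff (measure_ne_top _ _)] at h0
    exact h0
  have key2 : ∀ᵐ ω ∂P, ∀ m N : ℕ, ∃ n : ℕ, N ≤ n ∧
      √(Real.log n) * (count A n ω : ℝ) / n < 1 / ((m : ℝ) + 1) := by
    rw [ae_all_iff]
    intro m
    rw [ae_all_iff]
    intro N
    exact key m N
  filter_upwards [key2] with ω hω ε hε
  obtain ⟨m, hm⟩ := exists_nat_one_div_lt hε
  rw [frequently_atTop]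
  intro N
  obtain ⟨n, hn, hlt⟩ := hω m N
  exact ⟨n, hn, hlt.trans hm⟩

/-- Almost surely the normalised counting function has no positive limit. -/
theorem ae_not_tendsto (h : IsRandomLacunary P A) :
    ∀ᵐ ω ∂P, ∀ C : ℝ, 0 < C →
      ¬ Tendsto (fun n : ℕ => √(Real.log n) * (count A n ω : ℝ) / n) atTop (𝓝 C) := by
  filter_upwards [ae_frequently_lt h] with ω hω C hC ht
  have h1 : ∀ᶠ n : ℕ in atTop, C / 2 < √(Real.log n) * (count A n ω : ℝ) / n :=
    ht.eventually_const_lt (by linarith)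
  obtain ⟨n, hn1, hn2⟩ := ((hω (C / 2) (by linarith)).and_eventually h1).exists
  linarith

end Pool.Agent.Lib.MP_78f804_pr
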